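import Pool.Agent.Work.MP_b29d7f_ns.Interface3

/-! COMP2A: the limit form of COMP1. -/

set_option autoImplicit false

open Finset Filter Topology MeasureTheory

namespace Pool.NS

namespace COMP2A_

open scoped Classical in
lemma bad_eq {α ι : Type} (A : Finset α) (F : Finset ι) (p : ι → α → Prop)
    (hd : ∀ i ∈ F, ∀ i' ∈ F, i ≠ i' → ∀ x, p i x → ¬ p i' x) :
    ((A.filter (fun x => ∀ i ∈ F, ¬ p i x)).card : ℝ)
      = A.card - ∑ i ∈ F, ((A.filter (fun x => p i x)).card : ℝ) := by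
  have h1 : (A.filter (fun x => ¬ ∀ i ∈ F, ¬ p i x)).card
      = ∑ i ∈ F, (A.filter (fun x => p i x)).card := by
    rw [← Finset.card_biUnion]
    · congr 1
      ext x
      simp only [Finset.mem_filter, Finset.mem_biUnion]
      constructor
      · rintro ⟨hx, h⟩
        push Not at h
        obtain ⟨i, hi, hp⟩ := h
        exact ⟨i, hi, hx, hp⟩
      · rintro ⟨i, hi, hx, hp⟩
        exact ⟨hx, fun h => h i hi hp⟩
    · intro i hi i' hi' hne
      refine Finset.disjoint_left.2 ?_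
      intro x hx hx'
      exact hd i hi i' hi' hne x (Finset.mem_filter.1 hx).2 (Finset.mem_filter.1 hx').2
  have h2 := Finset.card_filter_add_card_filter_not (s := A) (fun x => ∀ i ∈ F, ¬ p i x)
  have h3 : (((A.filter (fun x => ∀ i ∈ F, ¬ p i x)).card : ℕ) : ℝ)
      + ((A.filter (fun x => ¬ ∀ i ∈ F, ¬ p i x)).card : ℕ) = A.card := by
    exact_mod_cast h2
  rw [h1] at h3
  push_cast at h3
  linarith

lemma cont_G {k : ℕ} (a b : E k) (M : ℕ) :
    Continuous (fun z : E k × E k =>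
      Real.log (‖(z.1 + a) - (z.2 + b)‖ ^ 2 + Real.exp (-(M : ℝ)) ^ 2)
        - Real.log (‖z.1 - z.2‖ ^ 2 + Real.exp (-(M : ℝ)) ^ 2)) := by
  apply Continuous.sub
  · apply Continuous.log
    · fun_prop
    · intro z
      have := Real.exp_pos (-(M : ℝ))
      positivity
  · apply Continuous.log
    · fun_prop
    · intro z
      have := Real.exp_pos (-(M : ℝ))
      positivity

end COMP2A_

open COMP2A_

/-- COMP2A -/
theorem stmt_COMP2A (h1 : Stmt_COMP1) (h2 : Stmt_WKC) : Stmt_COMP2A := by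
  classical
  intro R _ P S v f φ hL W
  obtain ⟨C, hC, hC1⟩ := h1 R P S W
  refine ⟨C, hC, ?_⟩
  intro M ι F Q w κ hκ hw hQ hdis hsep
  -- limit of the right-hand side
  have hR : Tendsto (fun l => (S.n l)⁻¹ ^ 2 * ∑ i ∈ F, ∑ i' ∈ F,
      ∑ x ∈ (S.A l).filter (fun x => S.X l x v ∈ Q i),
        ∑ y ∈ (S.A l).filter (fun x => S.X l x v ∈ Q i'),
          (Real.log (‖(S.X l x v + w i) - (S.X l y v + w i')‖ ^ 2 + Real.exp (-(M : ℝ)) ^ 2)
            - Real.log (‖S.X l x v - S.X l y v‖ ^ 2 + Real.exp (-(M : ℝ)) ^ 2))) 𝒰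
      (𝓝 (∑ i ∈ F, ∑ i' ∈ F, ∫ z in Q i, ∫ z' in Q i',
        (Real.log (‖(z + w i) - (z' + w i')‖ ^ 2 + Real.exp (-(M : ℝ)) ^ 2)
          - Real.log (‖z - z'‖ ^ 2 + Real.exp (-(M : ℝ)) ^ 2)) * (f z * f z'))) := by
    simp_rw [Finset.mul_sum]
    apply tendsto_finsetSum
    intro i hi
    apply tendsto_finsetSum
    intro i' hi'
    have := (h2 R P S v f φ hL (Q i) (Q i') (hQ i hi).1 (hQ i hi).2.1 (hQ i hi).2.2
      (hQ i' hi').1 (hQ i' hi').2.1 (hQ i' hi').2.2).2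
      (fun z z' => Real.log (‖(z + w i) - (z' + w i')‖ ^ 2 + Real.exp (-(M : ℝ)) ^ 2)
          - Real.log (‖z - z'‖ ^ 2 + Real.exp (-(M : ℝ)) ^ 2)) (cont_G (w i) (w i') M)
    simp_rw [Finset.mul_sum] at this
    exact this
  -- limit of the fraction of bad points
  have hB : Tendsto (fun l => (((S.A l).filter (fun x => ∀ i ∈ F, S.X l x v ∉ Q i)).card : ℝ)
      / S.n l) 𝒰 (𝓝 (1 - ∑ i ∈ F, ∫ z in Q i, f z)) := by
    have h3 : ∀ l, (((S.A l).filter (fun x => ∀ i ∈ F, S.X l x v ∉ Q i)).card : ℝ) / S.n l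
        = 1 - ∑ i ∈ F, (((S.A l).filter (fun x => S.X l x v ∈ Q i)).card : ℝ) / S.n l := by
      intro l
      rw [bad_eq (S.A l) F (fun i x => S.X l x v ∈ Q i)
        (fun i hi i' hi' hne x hx hx' => Set.disjoint_left.1 (hdis i hi i' hi' hne) hx hx'),
        sub_div, Finset.sum_div]
      congr 1
      exact div_self (S.n_pos l).ne'
    simp_rw [h3]
    apply Tendsto.sub tendsto_const_nhds
    apply tendsto_finsetSum
    intro i hi
    exact (h2 R P S v f φ hL (Q i) (Q i) (hQ i hi).1 (hQ i hi).2.1 (hQ i hi).2.2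
      (hQ i hi).1 (hQ i hi).2.1 (hQ i hi).2.2).1
  apply le_of_forall_pos_le_add
  intro ε hε
  have h4 := hC1 v M ι F Q w κ ε hκ hε hw hdis hsep
  have h5 : Tendsto (fun l => -ε - C * Real.exp (-(S.c * M))
        - C * ((((S.A l).filter (fun x => ∀ i ∈ F, S.X l x v ∉ Q i)).card : ℝ) / S.n l)) 𝒰
      (𝓝 (-ε - C * Real.exp (-(S.c * M)) - C * (1 - ∑ i ∈ F, ∫ z in Q i, f z))) :=
    Tendsto.sub tendsto_const_nhds (hB.const_mul C)
  have h6 := le_of_tendsto_of_tendsto h5 hR (Nat.hyperfilter_le_atTop h4)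
  linarith

end Pool.NS
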