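import Pool.Agent.Work.MP_b29d7f_ns.Interface3

/-! MOVE: change of the potential under a translation. -/

set_option autoImplicit false

open Finset Filter Topology MeasureTheory

namespace Pool.NS

namespace MOVE_

lemma unifc {k : ℕ} (φ : E k → ℝ) (hφ : Continuous φ) (B δ : ℝ) (hδ : 0 < δ) :
    ∀ᶠ κ in 𝓝[>] (0 : ℝ), ∀ x y : E k, ‖x‖ ≤ B → ‖y‖ ≤ B → ‖x - y‖ ≤ κ → |φ x - φ y| ≤ δ := by
  have h1 : UniformContinuousOn φ (Metric.closedBall 0 B) :=
    (isCompact_closedBall 0 B).uniformContinuousOn_of_continuous hφ.continuousOn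
  rw [Metric.uniformContinuousOn_iff] at h1
  obtain ⟨η, hη, h2⟩ := h1 δ hδ
  filter_upwards [Ioo_mem_nhdsGT hη] with κ hκ x y hx hy hxy
  have h3 := h2 x (by simpa using hx) y (by simpa using hy)
    (by rw [dist_eq_norm]; exact lt_of_le_of_lt hxy hκ.2)
  rw [Real.dist_eq] at h3
  exact h3.le

lemma near_add {R : Type} [CommRing R] {P : Data R} {t : P.T} {m : ℤ} {x w : R}
    (h : P.NearT t m w 0) : P.NearT t m (x + w) x := by
  rcases h with h1 | h1
  · left; rw [h1, add_zero]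
  · right
    rw [sub_zero] at h1
    rwa [add_sub_cancel_left]

end MOVE_

open MOVE_

/-- MOVE -/
theorem stmt_MOVE (h1 : Stmt_TCON) (h2 : Stmt_GRO) : Stmt_MOVE := by
  classical
  intro R _ P S f φ hL W ε hε
  obtain ⟨C, c, hC, hc, hT⟩ := h1 R P S
  set D : ℝ := (Fintype.card P.Ω : ℝ) with hD
  have hD0 : 0 ≤ D := by rw [hD]; positivity
  set δ : ℝ := ε / (4 * (D + 1)) with hδ
  have hδ0 : 0 < δ := by rw [hδ]; positivity
  have hδD : D * (3 * δ) + ε / 4 ≤ ε := by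
    have h3 : δ * (D + 1) = ε / 4 := by
      rw [hδ]; field_simp
    nlinarith
  set B : ℝ := Real.exp W + W + 1 with hB
  -- choice of `κ`
  have hκ : ∀ᶠ κ in 𝓝[>] (0 : ℝ), ∀ v, ∀ x y : E (P.e v), ‖x‖ ≤ B → ‖y‖ ≤ B → ‖x - y‖ ≤ κ →
      |φ v x - φ v y| ≤ δ := by
    rw [eventually_all]
    intro v
    exact unifc (φ v) (h2 (P.e v) (f v) (φ v) (S.geo.e_eq v) (hL v).dens).1 B δ hδ0
  obtain ⟨κ, hκ1, hκ2⟩ := (hκ.and (Ioo_mem_nhdsGT (zero_lt_one' ℝ))).exists
  -- choice of `r`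
  have hr : ∀ᶠ r : ℕ in atTop, C * Real.exp (-(c * r)) < ε / 4 := by
    have h3 : Tendsto (fun r : ℕ => C * Real.exp (-(c * (r : ℝ)))) atTop (𝓝 (C * 0)) := by
      apply Tendsto.const_mul
      apply Real.tendsto_exp_atBot.comp
      apply tendsto_neg_atTop_atBot.comp
      apply Tendsto.const_mul_atTop hc
      exact tendsto_natCast_atTop_atTop
    rw [mul_zero] at h3
    exact h3.eventually_lt_const (by positivity)
  obtain ⟨r, hr⟩ := hr.exists
  refine ⟨κ, r, hκ2.1, ?_⟩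
  have h4 : ∀ᶠ l in 𝒰, ∀ v, ∀ ξ : E (P.e v), ‖ξ‖ ≤ B → |S.pV l v ξ - φ v ξ| ≤ δ := by
    rw [eventually_all]
    intro v
    exact (hL v).unif B δ hδ0
  have h5 : ∀ᶠ l in 𝒰, r ≤ P.Mx (S.A l).card := Nat.hyperfilter_le_atTop (S.eventually_Mx r)
  filter_upwards [h4, h5] with l h4 h5 x ω w hx hw hω hωt
  have hTx : |S.pT l (x + ω) - S.pT l x| ≤ ε / 4 :=
    le_trans (hT r l h5 (x + ω) x fun t => near_add (hωt t)) hr.le
  have hV : ∀ v, |S.pV l v (S.X l (x + ω) v) - S.pV l v (S.X l x v)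
      - (φ v (S.X l x v + w v) - φ v (S.X l x v))| ≤ 3 * δ := by
    intro v
    have hW : 0 ≤ W := le_trans (norm_nonneg _) (hw v)
    have hXx : ‖S.X l x v‖ ≤ Real.exp W :=
      le_trans (S.norm_X_le l x v) (Real.exp_le_exp.2 hx)
    have hXo : ‖S.X l ω v‖ ≤ W + 1 := by
      have h6 : ‖S.X l ω v‖ ≤ ‖S.X l ω v - w v‖ + ‖w v‖ := by
        have := norm_add_le (S.X l ω v - w v) (w v)
        rwa [sub_add_cancel] at this
      have := hω v
      have := hw v
      linarith [hκ2.2]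
    have hb1 : ‖S.X l x v‖ ≤ B := by rw [hB]; linarith
    have hb2 : ‖S.X l x v + S.X l ω v‖ ≤ B := by
      have := norm_add_le (S.X l x v) (S.X l ω v)
      rw [hB]; linarith
    have hb3 : ‖S.X l x v + w v‖ ≤ B := by
      have := norm_add_le (S.X l x v) (w v)
      have := hw v
      rw [hB]; linarith
    have hk : ‖(S.X l x v + S.X l ω v) - (S.X l x v + w v)‖ ≤ κ := by
      rw [add_sub_add_left_eq_sub]; exact hω v
    have e1 := h4 v _ hb1
    have e2 := h4 v _ hb2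
    have e3 := hκ1 v _ _ hb2 hb3 hk
    rw [S.X_add]
    rw [abs_le] at e1 e2 e3 ⊢
    constructor <;> linarith [e1.1, e1.2, e2.1, e2.2, e3.1, e3.2]
  have hsum : |∑ v, (S.pV l v (S.X l (x + ω) v) - S.pV l v (S.X l x v)
      - (φ v (S.X l x v + w v) - φ v (S.X l x v)))| ≤ D * (3 * δ) := by
    refine le_trans (Finset.abs_sum_le_sum_abs _ _) ?_
    refine le_trans (Finset.sum_le_sum fun v _ => hV v) ?_
    rw [Finset.sum_const, nsmul_eq_mul, hD, Finset.card_univ]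
  have heq : S.Ph l (x + ω) - S.Ph l x - ∑ v, (φ v (S.X l x v + w v) - φ v (S.X l x v))
      = ∑ v, (S.pV l v (S.X l (x + ω) v) - S.pV l v (S.X l x v)
          - (φ v (S.X l x v + w v) - φ v (S.X l x v))) + (S.pT l (x + ω) - S.pT l x) := by
    unfold Sq.Ph
    simp only [Finset.sum_sub_distrib]
    ring
  rw [heq]
  exact le_trans (abs_add_le _ _) (by linarith)

end Pool.NS
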